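import Pool.Agent.H44T.BR.Op

/-!
# The Kunneth projectors up to errors of bounded rank

Fix the dimension `n`, for example `n = 3`, and a set `J` of degrees, for example `J = {i}`. Let `π_J` be
the projector onto the sum of the `H^j(X)`, `j ∈ J`: for `J = {i}` it is the Kunneth projector `π^i`.

**Theorem.**

(1) `π_J` is in the `K`-span of the algebraic correspondences for all smooth projective varieties `X` of
dimension `n` if and only if there is ONE number `d`, for example `d = 10 ^ 100`, such that for all these
`X` some linear combination `φ` of algebraic correspondences satisfies `rank (φ - π_J) ≤ d` on `H(X)`.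

(2) For one polarized variety `(S, D)` of dimension `n`: `π_J` is in the `K`-span of the algebraic
correspondences on `S` if, for some `N`, some smooth complete intersection `V ⊆ S^N` of dimension `n` of
divisors in multiples of the class `D + ... + D` has such a combination with `rank (φ - π_J) = d` and
`d dim H(S) < N`.

So if `π^i` is not algebraic for one variety of dimension `n`, then for every `d` there is a variety of the
same dimension for which no combination of algebraic correspondences is equal to `π^i` up to an error
of rank at most `d`.

Proof. Let `V ⊆ S^N` be as above, with the projections `p_l : V → S`. If `x` is orthogonal to the powers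
of `ξ` then `p_{m*} p_j^* x = 0` for `m ≠ j` and `p_{j*} p_j^* x = κ x`. If `φ = π_J + m` on `H(V)`, with
`rank m ≤ d`, and `N > d dim H(S)`, then there is a nontrivial relation `∑ b_l p_{l*} = 0` on the image of
`m`, and `∑ b_l p_{l*} φ p_j^* x = π_J (∑ b_l p_{l*} p_j^* x) = b_j κ π_J x`, since `π_J` commutes with the
`p_{l*}`. The projectors onto the powers of `ξ` are algebraic.
-/

universe u v

namespace Pool.Agent.Results.MP_a60482_ag.BoundedRankErrors

open Pool.Agent.H914 Pool.Agent.H914.VarClass Pool.Agent.H914.VarClass.Obj
  Pool.Agent.H914.WeilCohomology Pool.Agent.H44T.BR Pool.Agent.TH133.PW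

/-- **The Kunneth projectors are algebraic for all varieties of dimension `n` if they are algebraic up
to errors of bounded rank.** -/
theorem result {k : Type u} [Field k] {𝒱 : VarClass k} {ops : CycleOps 𝒱}
    (W : WeilCohomology.{u, v} ops) (Pol : ∀ X : 𝒱.Obj, X.Cycles → Prop) (n : ℕ)
    (hP : HasPowers W Pol n) (J : Set ℕ) :
    (ProjAll W Pol n J ↔ ∃ d, ProjErrorsAtMost W Pol n J d) ∧
    (∀ (S : 𝒱.Obj) (D : S.Cycles), S.dim = n → Pol S D → HasGoodProjPower W S D J →
      SetProjInSpan (W.gr S) J (cycleOperators W S S.dim)) :=
  ⟨proj_iff hP J, fun S D _ hSD h => proj_of_power (hP.cyc S D hSD) (hP.hard S D hSD) h⟩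

end Pool.Agent.Results.MP_a60482_ag.BoundedRankErrors
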