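import Pool.Agent.V1144.Dt.CMain

/-!
# The Künneth components of the diagonal and the determinants of the cohomology

Let `X` be a smooth projective variety of dimension `n` over a field `k`, let `W` be a Weil cohomology
theory with coefficient field `K`, and `0 ≤ i ≤ 2n`. Write `b = dim H^i(X) = dim H^(2n-i)(X)` and let

`det H^i(X) ⊂ H^i(X)^(⊗ b) ⊂ H^(i b)(X^b)`

be the line spanned by the antisymmetrized external product of a basis of `H^i(X)`. We prove that the
Künneth component `π^i` of the diagonal of `X` is algebraic if and only if the line

`det H^(2n-i)(X) ⊗ det H^i(X) ⊂ H^(2nb)(X^(2b))`

is spanned by an algebraic class on the product of `2b` copies of `X`; both for classes with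
coefficients in `K` and for classes with rational coefficients. The equivalence holds for each degree
`i` separately, for all Weil cohomology theories, without any assumption. So the conjecture `C(X)` is
the algebraicity of `2n + 1` classes of rank one.

Proof. This is Cramer's rule. Let `a` be a basis of `H^(2n-i)(X)` and `b` the dual basis of `H^i(X)`.
Then `π^i = ± ∑ a_l × b_l`. If it is algebraic then so is its determinant
`∑ ± (p_1 × p_(σ 1))^* π^i ⋯ = ± det (a) × det (b)`. Conversely the contraction of
`det (a) × det (b)` with the diagonals of all factors but the first ones is `± (b - 1)! π^i`. If only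
a multiple `r det (a) × det (b)` is the class of a cycle with rational coefficients then `r` is
rational: the degree of the intersection of the cycle with the diagonal of `X^b` is `± r b!`.
-/

open Pool.Agent.H914 Pool.Agent.V1144.Dt

universe u v

namespace Pool.Agent.Results.MP_a60482_ag.DeterminantProducts

/-- **The Künneth components of the diagonal and the determinants of the cohomology.** -/
theorem result {k : Type u} [Field k] {𝒱 : VarClass k} {ops : CycleOps 𝒱}
    (W : WeilCohomology.{u, v} ops) (X : 𝒱.Obj) (i : ℕ) (hi : i ≤ 2 * X.dim) :
    (ProjectorSpan W X i ↔ DetProductSpan W X i) ∧
      (ProjectorRational W X i ↔ DetProductRational W X i) :=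
  ⟨(projectorSpan_iff hi).trans detProductSpan_iff.symm,
    (projectorRational_iff hi).trans detProductRational_iff.symm⟩

end Pool.Agent.Results.MP_a60482_ag.DeterminantProducts
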