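import Pool.Agent.TH133.PW.Kun

/-!
# The Kunneth components are algebraic if and only if single classes can be separated

Let `W` be a Weil cohomology theory with coefficient field `K` (no Lefschetz axiom), `X` smooth
proper of dimension `n` and `i ≥ 0`. The following are equivalent:

* the projector onto `H^i(X)` is a `K`-linear combination of algebraic correspondences;
* for all `j ≠ i`, every class `y` in `H^i(X)` and every class `y'` in `H^j(X)` there is a
  `K`-linear combination `φ` of algebraic correspondences, which may depend on `y` and `y'`, with
  `φ(y) = y` and `φ(y') = 0`;
* whenever `y × w + y' × w'` is orthogonal to all algebraic cycles of codimension `n` on `X × X`,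
  for classes `y`, `w` of degrees `i`, `2n - i` and `y'`, `w'` of degrees `j`, `2n - j`, `j ≠ i`,
  then `tr(y w) = 0`;
* every subspace of `H(X)` (graded or not) which is stable under the algebraic correspondences of
  degree zero is stable under the projector onto `H^i(X)`.
-/

open Pool.Agent.H914 Pool.Agent.H914.VarClass Pool.Agent.H914.VarClass.Obj
  Pool.Agent.H914.WeilCohomology Pool.Agent.TH133.PW

universe u v

namespace Pool.Agent.Results.MP_a60482_ag.PointwiseSeparation

/-- **The Kunneth projector from the separation of single classes.** -/
theorem result {k : Type u} [Field k] {𝒱 : VarClass k} {ops : CycleOps 𝒱}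
    (W : WeilCohomology.{u, v} ops) (X : 𝒱.Obj) (i : ℕ) :
    [ProjectorInSpan (W.gr X) i (cycleOperators W X X.dim),
      Separates (W.gr X) i (cycleOperators W X X.dim), DetectsPairs W X i,
      StableSplit (W.gr X) i (cycleOperators W X X.dim)].TFAE :=
  kunneth_span_tfae i

end Pool.Agent.Results.MP_a60482_ag.PointwiseSeparation
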