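import Pool.Agent.V11106.SH.Kun

/-!
# The Künneth projectors up to errors of small rank

Let `W` be a Weil cohomology theory (coefficients `K`; no Lefschetz axiom) on a class of varieties
closed under products, which contains, for every `N`, a surface with algebraic cohomology and `N`
independent divisor classes (a blow-up of the projective plane).

**Fixed dimension and degree.** If on the varieties `Y` of dimension `n + 2` the projector onto
`H^(i + 2)(Y)` is a combination, with coefficients in `K`, of algebraic correspondences up to errors
whose rank is `o(b)`, where `b` is the sum of the Betti numbers of `Y`, then for all `X` of dimension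
`n` the projector onto `H^i(X)` is a combination of algebraic correspondences.

**All dimensions.** Hence the Künneth standard conjecture for all varieties is equivalent to errors
whose rank is bounded for each dimension and degree, and to errors whose rank is `o(b)`.
-/

open CategoryTheory AlgebraicGeometry

universe u v

namespace Pool.Agent.Results.MP_a60482_ag.SublinearDefects

open Pool.Agent.H914 VarClass Obj WeilCohomology Pool.Agent.V11106.LB Pool.Agent.V11106.SH

variable {k : Type u} [Field k] {𝒱 : VarClass k} {ops : CycleOps 𝒱}

theorem result (W : WeilCohomology.{u, v} ops) (hT : HasRationalSurfaces W) :
    (∀ n i : ℕ, ProjectorUpToSublinear W (n + 2) (i + 2) → ProjectorExact W n i) ∧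
    [∀ n i : ℕ, ProjectorExact W n i, ∀ n i : ℕ, ProjectorUpToBounded W n i,
      ∀ n i : ℕ, ProjectorUpToSublinear W n i].TFAE :=
  projector_main hT

end Pool.Agent.Results.MP_a60482_ag.SublinearDefects
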